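import Mathlib
import Pool.Agent.X21.Qd.Ar

/-!
# Artin's holomorphy conjecture in `A_n`-extensions at zeros of order `< (n - 2)² / 18`

`Pool.Agent.H541R3.ART.Irr G` is the set of irreducible complex characters of the finite group `G`.

`Pool.Agent.H541R3.ART.ArtinData G s₀` is a family of functions with the formal properties of the
Artin L-functions of a Galois extension `K/k` with group `G` near a point `s₀ ≠ 1`: functions
`L χ` for the irreducible characters `χ` of `G` and `Lin H ψ` for the linear characters `ψ` of the
subgroups `H`, such that `L χ` is meromorphic and not identically zero near `s₀` (Brauer), `Lin H ψ`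
has no pole at `s₀` (Artin reciprocity and Hecke), and `Lin H ψ` is the product of the
`L χ ^ ⟨χ|_H, ψ⟩` (induction). In particular `Lin ⊥ 1` stands for the Dedekind zeta function of `K`
and `Lin H 1` for that of `K^H`.

`Pool.Agent.X21.Qd.IsRel A H η F` says that `F` is, near `s₀`, the Artin L-function of the character
`η` of `H = Gal(K/K^H)`, i.e. the product of the `L χ ^ ⟨χ|_H, η⟩`. Every `η ∈ Irr H` has such an
`F`; for linear `η` it is `Lin H η`, and for `H = G` it is `L η` (part (0)).

For a permutation `g` of `Fin n`, `Function.minimalPeriod g x` is the length of the cycle of `g`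
through `x` and `Pool.Agent.X21.Sy.fx g` is the number of fixed points of `g`. Call a prime `p`
*large* if `n < 2p + 2`. `Pool.Agent.X21.Qd.Small n g` says that `g` has no cycle of large prime
length. `Pool.Agent.X21.Qd.Good n r g` says that the cycles of `g` of large prime length `p` satisfy
`p ≤ n - 14` and `r < (p - 1)(n - p - 2)`. `Pool.Agent.X21.Qd.orbNum H X ψ` is the number of orbits
of `H` on `X` on whose point stabilizers `ψ` is trivial, so `orbNum H X 1` is the number of orbits.
-/

set_option autoImplicit false

open Pool.Agent.H541R3.ART Pool.Agent.X21.Sy Pool.Agent.X21.Qd Equiv Function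

open scoped Classical in
/-- Let `K/k` be a Galois extension with group `A_n`, `n ≥ 28`, and let the order `r` of `ζ_K` at
`s₀` satisfy `18 r < (n - 2)²`. Then there are a natural number `c` and natural numbers `γ(l)` with
the following properties.
(0) The functions `L(s, η, K/K^H)` exist, and include all `Lin H ψ` and `L χ`.
(1) Let `η` be an irreducible character of a subgroup `H ≤ A_n` which vanishes on the elements with a
cycle of large prime length; for instance, `H` any subgroup of order prime to the large primes, and
`η` any irreducible character of `H`. Then `L(s, η, K/K^H)` is holomorphic at `s₀`, and has there a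
zero of order `c d`, where `d` is the multiplicity of `η` in the permutation character of degree
`n`, plus `r - c n` if `η = 1`. In particular `L(s₀, η, K/K^H) ≠ 0` if `η ≠ 1` does not occur in the
permutation character. The case `H = A_n` gives Artin's conjecture at `s₀`, and the order, for every
irreducible `χ` of `A_n` which vanishes on the permutations with a cycle of large prime length.
(2) For `H` of order prime to the large primes and linear `ψ`, the order of the Hecke L-function is
`c` times the number of orbits of `H` on whose point stabilizers `ψ` is trivial, plus `r - c n` if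
`ψ = 1`. In particular the order of `ζ_{K^H}` is `r - c n + c · (number of orbits of H)`.
(3) `γ(l) = c` for all `l ≥ 2` except the large primes, and `(l - 1) γ(l) ≤ r` for these. For all
`η ∈ Irr H` vanishing on the elements which are not `Good`, the order of `L(s, η, K/K^H)` is the
scalar product of `η` with the class function `g ↦ r - ∑ γ(length of the cycle of x)`, sum over the
points `x` moved by `g`. -/
theorem Pool.Agent.Results.MP_d2121a_nt.QuadraticRange.result :
    ∀ n : ℕ, 28 ≤ n → ∀ (s₀ : ℂ) (A : ArtinData (alternatingGroup (Fin n)) s₀) (r : ℕ),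
      meromorphicOrderAt (A.Lin ⊥ 1) s₀ = (r : WithTop ℤ) → 18 * r < (n - 2) * (n - 2) →
    ((∀ (H : Subgroup (alternatingGroup (Fin n))) (η : H → ℂ), η ∈ Irr H → ∃ F, IsRel A H η F) ∧
      (∀ (H : Subgroup (alternatingGroup (Fin n))) (ψ : H →* ℂˣ),
        IsRel A H (fun h => ((ψ h : ℂˣ) : ℂ)) (A.Lin H ψ)) ∧
      (∀ χ ∈ Irr (alternatingGroup (Fin n)),
        IsRel A ⊤ (fun h : (⊤ : Subgroup (alternatingGroup (Fin n))) => χ h) (A.L χ))) ∧
    ∃ (c : ℕ) (γ : ℕ → ℕ),
      (∀ (H : Subgroup (alternatingGroup (Fin n))) (η : H → ℂ), η ∈ Irr H →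
        (∀ h : H, ¬ Small n (h : alternatingGroup (Fin n)) → η h = 0) →
        ∃ d : ℕ, ∑ᶠ h : H, (fx ((h : alternatingGroup (Fin n)) : Perm (Fin n)) : ℂ) * η h⁻¹
            = (d : ℂ) * Nat.card H ∧
          0 ≤ (if η = 1 then (r : ℤ) - c * n else 0) + c * d ∧
          ∀ F : ℂ → ℂ, IsRel A H η F → meromorphicOrderAt F s₀
            = (((if η = 1 then (r : ℤ) - c * n else 0) + c * d : ℤ) : WithTop ℤ)) ∧
      (∀ (H : Subgroup (alternatingGroup (Fin n))) (ψ : H →* ℂˣ),
        (∀ p : ℕ, p.Prime → n < 2 * p + 2 → ¬ p ∣ Nat.card H) →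
        meromorphicOrderAt (A.Lin H ψ) s₀
          = (((if ψ = 1 then (r : ℤ) - c * n else 0) + c * orbNum H (Fin n) ψ : ℤ)
            : WithTop ℤ)) ∧
      (γ 1 = 0 ∧ (∀ l, 2 ≤ l → (l.Prime → 2 * l + 2 ≤ n) → γ l = c) ∧
        ∀ l, l.Prime → n < 2 * l + 2 → (l - 1) * γ l ≤ r) ∧
      ∀ (H : Subgroup (alternatingGroup (Fin n))) (η : H → ℂ), η ∈ Irr H →
        (∀ h : H, ¬ Good n r (h : alternatingGroup (Fin n)) → η h = 0) →
        ∃ k : ℤ, (k : ℂ) * Nat.card H = ∑ᶠ h : H,
            (r - ∑ x, (γ (minimalPeriod ((h : alternatingGroup (Fin n)) : Perm (Fin n)) x) : ℂ))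
              * η h⁻¹ ∧
          ∀ F : ℂ → ℂ, IsRel A H η F → meromorphicOrderAt F s₀ = (k : WithTop ℤ) := by
  intro n hn s₀ A r hr hlt
  exact ⟨⟨fun H η hη => exists_rel A H hη, fun H ψ => rel_lin A H ψ, fun χ hχ => rel_top A hχ⟩,
    artin_quad hn A hr hlt⟩
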