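import Mathlib
import Pool.Agent.X21.Sy.Fin

/-!
# Artin's holomorphy conjecture for symmetric and alternating groups at zeros of small order: the
# exact range

`Pool.Agent.H541R3.ART.Irr G` is the set of irreducible complex characters of the finite group `G`.

`Pool.Agent.H541R3.ART.ArtinData G s₀` is a family of functions with the formal properties of the
Artin L-functions of a Galois extension `E/K` with group `G` near a point `s₀ ≠ 1`: functions
`L χ` for the irreducible characters `χ` of `G` and `Lin H ψ` for the linear characters `ψ` of the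
subgroups `H`, such that `L χ` is meromorphic and not identically zero near `s₀` (Brauer), `Lin H ψ`
has no pole at `s₀` (Artin reciprocity and Hecke), and `Lin H ψ` is the product of the
`L χ ^ ⟨χ|_H, ψ⟩` (induction). In particular `Lin ⊥ 1` stands for the Dedekind zeta function of `E`.

`Pool.Agent.H302R10.Rigid r S` says that every Heilbronn function of degree at most `r` on `S` is
constant: a Heilbronn function is a class function whose restriction to every subgroup `H` has a
nonnegative integer multiplicity against every linear character of `H`, and its degree is its value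
at `1`.

`Pool.Agent.X21.Sy.AltFac r S` says that `S` is isomorphic to `A_n` for some `n ≥ 14` with
`r < n - 1`, and with `r < n - 2` if `n` is prime. `Pool.Agent.TH820.FacO r S` (starting library) is
a list of groups of Lie type of large rank, of alternating groups in a smaller range, and all groups
with `Rigid r S`. `Pool.Agent.TH820.BuiltC r P N` (starting library) says that the normal subgroup
`N` of `G` is obtained from the trivial subgroup by finitely many steps `M ≤ N` of two kinds: `N / M`
is normal in `G / M` and generated by finitely many pairwise commuting subgroups, each a homomorphic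
image of a finite group `S` with `P S`; or `N / M` is abelian and every nontrivial linear character
of `N / M` has more than `r` conjugates under `G / M`.
-/

set_option autoImplicit false

open Pool.Agent.H302R10 Pool.Agent.H541R3.ART Pool.Agent.X21.Sy Equiv

/-- (1) Let `E/K` be a Galois extension with group `G`, `A_n ≤ G ≤ S_n`, `n ≥ 14`, and let the order
`r` of `ζ_E` at `s₀` be less than `n - 1`, and less than `n - 2` if `n` is prime. Then every `L χ` is
holomorphic at `s₀`, and nonzero there unless `χ` is trivial on `A_n`.
(2) In prime degree `p ≥ 5` the bound cannot be improved by the formal properties of the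
`L`-functions: there are functions with these properties for `S_p` such that `ζ_E` has order exactly
`p - 2` at `s₀` and some `L χ` has a pole at `s₀`.
(3) For `n ≥ 14`, all Heilbronn functions of degree at most `r` on `A_n` are constant if and only if
`r < n - 1`, and `r < n - 2` in case `n` is prime.
(4) Let `G` be any finite group and `N` a normal subgroup built by means of such groups `A_n`, the
groups `FacO`, and modules without small orbits. Then `L χ` is holomorphic and nonzero at `s₀` for
all irreducible `χ` which are nontrivial on `N`, and all `L χ` are holomorphic at `s₀` if the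
irreducible characters trivial on `N` are monomial. -/
theorem Pool.Agent.Results.MP_d2121a_nt.SharpSymmetric.result :
    (∀ n : ℕ, 14 ≤ n → ∀ G : Subgroup (Perm (Fin n)), alternatingGroup (Fin n) ≤ G →
      ∀ (s₀ : ℂ) (A : ArtinData G s₀) (r : ℕ),
      meromorphicOrderAt (A.Lin ⊥ 1) s₀ = (r : WithTop ℤ) → r + 1 < n → (n.Prime → r + 2 < n) →
      ∀ χ ∈ Irr G, 0 ≤ meromorphicOrderAt (A.L χ) s₀ ∧
        ((∃ g : G, (g : Perm (Fin n)) ∈ alternatingGroup (Fin n) ∧ χ g ≠ χ 1) →
          meromorphicOrderAt (A.L χ) s₀ = 0)) ∧
    (∀ p : ℕ, p.Prime → 5 ≤ p → ∀ s₀ : ℂ, ∃ A : ArtinData (Perm (Fin p)) s₀,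
      meromorphicOrderAt (A.Lin ⊥ 1) s₀ = ((p - 2 : ℕ) : WithTop ℤ) ∧
      ∃ χ ∈ Irr (Perm (Fin p)), meromorphicOrderAt (A.L χ) s₀ < 0) ∧
    (∀ n r : ℕ, 14 ≤ n →
      (Rigid r (alternatingGroup (Fin n)) ↔ r + 1 < n ∧ (n.Prime → r + 2 < n))) ∧
    (∀ (G : Type) [Group G] [Finite G] (s₀ : ℂ) (A : ArtinData G s₀) (r : ℕ),
      meromorphicOrderAt (A.Lin ⊥ 1) s₀ = (r : WithTop ℤ) → ∀ N : Subgroup G,
      Pool.Agent.TH820.BuiltC r (fun S [Group S] => AltFac r S ∨ Pool.Agent.TH820.FacO r S) N →
      (∀ χ ∈ Irr G, (∃ n ∈ N, χ n ≠ χ 1) → meromorphicOrderAt (A.L χ) s₀ = 0) ∧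
      ((∀ χ ∈ Irr G, (∀ n ∈ N, χ n = χ 1) → IsMonomialChar χ) →
        ∀ χ ∈ Irr G, 0 ≤ meromorphicOrderAt (A.L χ) s₀)) := by
  refine ⟨fun n hn G hG s₀ A r hr h1 h2 χ hχ => artin_sharp hn G hG A hr h1 h2 χ hχ, ?_,
    fun n r hn => rigid_iff hn, fun G _ _ s₀ A r hr N hN => artin_built A hr N hN⟩
  intro p hp h5 s₀
  have : Fact p.Prime := ⟨hp⟩
  exact barrier (α := Fin p) (Fintype.card_fin p) h5 s₀
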