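import Mathlib
import Pool.Agent.X21.So.S7

/-!
# Artin's holomorphy conjecture for all solvable extensions of most degrees

`Pool.Agent.H541R3.ART.Irr G` is the set of irreducible complex characters of the finite group `G`.

`Pool.Agent.H541R3.ART.ArtinData G s₀` is a family of functions with the formal properties of the
Artin L-functions of a Galois extension `E/K` with group `G` near a point `s₀ ≠ 1`: functions
`L χ` for the irreducible characters `χ` of `G` and `Lin H ψ` for the linear characters `ψ` of the
subgroups `H`, such that `L χ` is meromorphic and not identically zero near `s₀` (Brauer), `Lin H ψ`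
has no pole at `s₀` (Artin reciprocity and Hecke), and `Lin H ψ` is the product of the
`L χ ^ ⟨χ|_H, ψ⟩` (induction). In particular `Lin ⊥ 1` stands for the Dedekind zeta function of `E`.

`Pool.Agent.X21.So.TwoSol A` adds to this the L-functions of the two-dimensional irreducible
characters with solvable image of the subgroups of `G`, which have no pole at `s₀` (the theorem of
Langlands and Tunnell).

`Pool.Agent.X21.So.Good n` says that `n` is divisible by none of the numbers `160`, `288`;
`4 p ^ 3` with `p` an odd prime; `p ^ 3 q` with `p`, `q` odd primes and `q ∣ p + 1`;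
`p ^ (2 k + 1) q` with `p ≠ q` primes, `k ≥ 2` (`k ≥ 3` if `p = 2`) and `q ∣ p ^ i - 1` for some
`1 ≤ i ≤ 2 k`.

`Pool.Agent.X21.Sy.AltFac r S` says that `S` is isomorphic to `A_n` for some `n ≥ 14` with
`r < n - 1`, and with `r < n - 2` if `n` is prime. `Pool.Agent.TH820.FacO r S` (starting library) is
a list of groups of Lie type of large rank, of alternating groups in a smaller range, and all groups
all of whose Heilbronn functions of degree at most `r` are constant.
`Pool.Agent.TH820.BuiltC r P N` (starting library) says that the normal subgroup `N` of `G` is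
obtained from the trivial subgroup by finitely many steps `M ≤ N` of two kinds: `N / M`
is normal in `G / M` and generated by finitely many pairwise commuting subgroups, each a homomorphic
image of a finite group `S` with `P S`; or `N / M` is abelian and every nontrivial linear character
of `N / M` has more than `r` conjugates under `G / M`.
-/

set_option autoImplicit false

open Pool.Agent.H541R3.ART Pool.Agent.X21.Sy Pool.Agent.X21.So

open Classical in
/-- (1) Let `E/K` be a solvable Galois extension whose degree is good. Then all its Artin
L-functions are holomorphic at `s₀`. (The Langlands-Tunnell theorem is used only if `24` divides the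
degree.)
(2) For every `X`, at least `24 / 25` of the numbers `n ≤ X` are good.
(3) Let `E/K` be a Galois extension with group `G`, let `r` be the order of `ζ_E` at `s₀` and let `N`
be a normal subgroup of `G` built by means of the groups `AltFac r`, `FacO r` and modules without
small orbits, such that `G / N` is solvable of good order. Then all Artin L-functions of `E/K` are
holomorphic at `s₀`.
(4) The group theory behind it: in a finite solvable group of good order, no quotient of a subgroup
has a frame of degree other than two. -/
theorem Pool.Agent.Results.MP_d2121a_nt.SolvableDegrees.result :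
    (∀ (G : Type) [Group G] [Finite G] [Group.IsSolvable G] (s₀ : ℂ) (A : ArtinData G s₀),
      Good (Nat.card G) → (Nonempty (TwoSol A) ∨ ¬ 24 ∣ Nat.card G) →
      ∀ χ ∈ Irr G, 0 ≤ meromorphicOrderAt (A.L χ) s₀) ∧
    (∀ X : ℕ, 24 * X ≤ 25 * ((Finset.Icc 1 X).filter Good).card) ∧
    (∀ (G : Type) [Group G] [Finite G] (s₀ : ℂ) (A : ArtinData G s₀) (r : ℕ),
      meromorphicOrderAt (A.Lin ⊥ 1) s₀ = (r : WithTop ℤ) →
      ∀ (N : Subgroup G) [N.Normal] [Group.IsSolvable (G ⧸ N)],
      Pool.Agent.TH820.BuiltC r (fun S [Group S] => AltFac r S ∨ Pool.Agent.TH820.FacO r S) N →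
      Good (Nat.card (G ⧸ N)) → (Nonempty (TwoSol A) ∨ ¬ 24 ∣ Nat.card (G ⧸ N)) →
      ∀ χ ∈ Irr G, 0 ≤ meromorphicOrderAt (A.L χ) s₀) ∧
    (∀ (G : Type) [Group G] [Finite G] [Group.IsSolvable G], Good (Nat.card G) →
      ∀ (H : Subgroup G) (X : Type) [Group X] (f : H →* X), Function.Surjective f →
      ∀ (F : Subgroup X) (D : ℕ), Pool.Agent.W446.AS.Frame X F D → D = 2 ∧ 24 ∣ Nat.card G) := by
  refine ⟨fun G _ _ _ s₀ A hG h24 χ hχ => artin_good A hG h24 χ hχ, fun X => card_good X,
    fun G _ _ s₀ A r hr N _ _ hN hG h24 χ hχ => artin_good_quot A hr N hN hG h24 χ hχ, ?_⟩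
  intro G _ _ _ hG H X _ f hf F D hF
  have hXfin : Finite X := Finite.of_surjective f hf
  have hXs : Group.IsSolvable X := Group.isSolvable_of_surjective hf
  have hXG : Nat.card X ∣ Nat.card G :=
    (Subgroup.card_dvd_of_surjective f hf).trans (Subgroup.card_subgroup_dvd_card H)
  by_cases h2 : D = 2
  · subst h2
    exact ⟨rfl, (frame_two hF).trans hXG⟩
  · exact absurd (hG.dvd hXG) (frame_order hF h2)
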