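import Mathlib
import Pool.Agent.X21.ArtSub

/-!
# Artin's holomorphy conjecture at zeros which come from Hecke L-functions of subnormal fields

`Pool.Agent.H541R3.ART.Irr G` is the set of irreducible complex characters of the finite group `G`.

`Pool.Agent.H541R3.ART.ArtinData G s₀` is a family of functions with the formal properties of the
Artin L-functions of a Galois extension `E/K` with group `G` near a point `s₀ ≠ 1`: functions
`L χ` for the irreducible characters `χ` of `G` and `Lin H ψ` for the linear characters `ψ` of the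
subgroups `H`, such that `L χ` is meromorphic and not identically zero near `s₀` (Brauer), `Lin H ψ`
has no pole at `s₀` (Artin reciprocity and Hecke), and `Lin H ψ` is the product of the
`L χ ^ ⟨χ|_H, ψ⟩` (induction). In particular `Lin ⊥ 1` stands for the Dedekind zeta function of `E`
and `Lin H 1` for that of the fixed field of `H`.

`Pool.Agent.X21.ArtSub.SuperSolv Q`: there is a chain of normal subgroups of `Q` from `⊥` to `⊤`
with cyclic factors.

`Pool.Agent.W446.AS.TwoDim A` are functions with the formal properties of the Artin L-functions of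
the irreducible characters of degree two of the subgroups of `G` (for solvable `G` these have no
pole at `s₀` by the theorem of Langlands and Tunnell). `Pool.Agent.W446.AS.Frame X F D`: the centre
`Z` of `X` is cyclic and contains all abelian normal subgroups of `X`, and `F` is a normal subgroup
of `X` containing `Z` such that `F / Z` is abelian of order `D ^ 2 > 1` and the centraliser of `F`
in `X` is `Z`.
-/

set_option autoImplicit false

open Pool.Agent.H541R3.ART Pool.Agent.W446.AS Pool.Agent.X21.ArtSub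

theorem Pool.Agent.Results.MP_d2121a_nt.SubnormalConcentration.result
    (G : Type) [Group G] [Finite G] (s₀ : ℂ) (A : ArtinData G s₀) (r : ℕ)
    (hr : meromorphicOrderAt (A.Lin ⊥ 1) s₀ = (r : WithTop ℤ)) (S : Set (Subgroup G))
    (hS : ∀ H ∈ S, H.IsSubnormal ∧
      ∃ l : H →* ℂˣ, meromorphicOrderAt (A.Lin H l) s₀ = (r : WithTop ℤ))
    (N : Subgroup G) [N.Normal] (hN : N = Subgroup.normalClosure (⋃ H ∈ S, (H : Set G))) :
    ∃ σ : N →* ℂˣ, (∀ (g : G) (n : N) (h : g * n * g⁻¹ ∈ N), σ ⟨g * n * g⁻¹, h⟩ = σ n) ∧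
      (∀ χ ∈ Irr G, meromorphicOrderAt (A.L χ) s₀ ≠ 0 →
        ∀ n : N, χ n = ((σ n : ℂˣ) : ℂ) * χ 1) ∧
      ((∀ χ ∈ Irr G, (∀ n : N, χ n = ((σ n : ℂˣ) : ℂ) * χ 1) → IsMonomialChar χ) →
        ∀ χ ∈ Irr G, 0 ≤ meromorphicOrderAt (A.L χ) s₀) ∧
      (SuperSolv (G ⧸ N) → ∀ χ ∈ Irr G, 0 ≤ meromorphicOrderAt (A.L χ) s₀) ∧
      ∀ (Y : Type) [Group Y] (π : G →* Y), Function.Surjective π →
        π.ker = (σ.ker).map N.subtype → Group.IsSolvable (G ⧸ N) →
        ((∃ χ ∈ Irr G, meromorphicOrderAt (A.L χ) s₀ < 0) →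
          ∃ (H : Subgroup Y) (X : Type) (_ : Group X) (f : H →* X) (F : Subgroup X) (D : ℕ),
            Function.Surjective f ∧ Frame X F D ∧ (Nonempty (TwoDim A) → D ≠ 2) ∧
            (2 * D ≤ r ∨ (D ≤ r ∧ ∃ g : X, F ⊔ Subgroup.zpowers g = ⊤))) ∧
        (((∃ P : ℕ, 3 ≤ P ∧ r ≤ 2 * P - 2 ∧ ∀ q : ℕ, q.Prime → q ∣ Nat.card Y → P ≤ q) ∨
            (r ≤ 12 ∧ (Nat.card Y).Coprime 6) ∨
            (r ≤ 10 ∧ Odd (Nat.card Y) ∧ ¬ 375 ∣ Nat.card Y ∧ ¬ 1215 ∣ Nat.card Y) ∨
            (r ≤ 6 ∧ Nonempty (TwoDim A) ∧ ¬ 108 ∣ Nat.card Y ∧ ¬ 160 ∣ Nat.card Y ∧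
              ¬ 375 ∣ Nat.card Y)) →
          ∀ χ ∈ Irr G, 0 ≤ meromorphicOrderAt (A.L χ) s₀) :=
  artin_subnormal A hr S hS N hN
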